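import Pool.Agent.Helper64.MH.Defs

/-!
# Part MAIN
-/

set_option autoImplicit false

noncomputable section

namespace MH.Helper82

open MeasureTheory Matrix
open scoped ENNReal Pointwise

/-- MAIN -/
theorem main (hPROD : S_PROD) (hTENS : S_TENS) : S_MAIN := by
  intro n K hK
  by_contra hcon
  push Not at hcon
  set b : ℝ := (5 / 2) ^ n with hb
  have hbpos : 0 < b := by positivity
  have hne : Mi K ≠ ⊤ := (hcon.trans ENNReal.ofReal_lt_top).ne
  set x : ℝ := (Mi K).toReal with hx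
  have hx0 : 0 ≤ x := ENNReal.toReal_nonneg
  have hxe : ENNReal.ofReal x = Mi K := ENNReal.ofReal_toReal hne
  have hxb : x < b := by
    rw [← hxe] at hcon
    exact (ENNReal.ofReal_lt_ofReal_iff hbpos).1 hcon
  obtain ⟨N, hN⟩ := exists_pow_lt_of_lt_one (show (0 : ℝ) < 3125 / 8192 by norm_num)
    ((div_lt_one hbpos).2 hxb)
  obtain ⟨L, hL, hLe⟩ := hTENS n N K hK
  have h1 := hPROD (N * n) L hL
  rw [hLe, ← hxe, ← ENNReal.ofReal_pow hx0, ENNReal.ofReal_le_ofReal_iff (by positivity)] at h1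
  have h2 : ((5 / 2 : ℝ)) ^ (N * n) = b ^ N := by rw [hb, ← pow_mul, mul_comm]
  rw [h2] at h1
  rw [div_pow, div_lt_iff₀ (by positivity)] at hN
  linarith

end MH.Helper82

end
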