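import Pool.Agent.Helper82.MH.Sym

/-!
# Part PB: the polar body
-/

set_option autoImplicit false

noncomputable section

namespace MH.Helper82

open MeasureTheory Matrix Set
open scoped ENNReal Pointwise

variable {n : ℕ} {K : Set (Fin n → ℝ)}

lemma pol_convex (K : Set (Fin n → ℝ)) : Convex ℝ (pol K) := by
  intro y hy z hz a b ha hb hab x hx
  have h1 := hy x hx
  have h2 := hz x hx
  rw [dotProduct_add, dotProduct_smul, dotProduct_smul, smul_eq_mul, smul_eq_mul]
  nlinarith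

lemma zero_mem_interior_pol (h : Bd K) : (0 : Fin n → ℝ) ∈ interior (pol K) := by
  obtain ⟨M, hM⟩ := h.2.1.isBounded.exists_norm_le
  have hM0 : 0 ≤ M := (norm_nonneg _).trans (hM 0 (interior_subset h.2.2))
  rw [mem_interior]
  refine ⟨Metric.ball 0 (1 / (n * M + 1)), ?_, Metric.isOpen_ball,
    Metric.mem_ball_self (by positivity)⟩
  intro y hy x hx
  have h1 : ‖y‖ < 1 / (n * M + 1) := by simpa using hy
  have h2 : x ⬝ᵥ y ≤ ∑ i : Fin n, M * ‖y‖ := by
    unfold dotProduct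
    refine Finset.sum_le_sum fun i _ => ?_
    calc x i * y i ≤ |x i * y i| := le_abs_self _
      _ = |x i| * |y i| := abs_mul _ _
      _ ≤ M * ‖y‖ := by
        refine mul_le_mul ?_ (norm_le_pi_norm y i) (abs_nonneg _) hM0
        exact (norm_le_pi_norm x i).trans (hM x hx)
  rw [Finset.sum_const, Finset.card_univ, Fintype.card_fin, nsmul_eq_mul] at h2
  rw [lt_div_iff₀ (by positivity)] at h1
  nlinarith [norm_nonneg y]

lemma bd_pol (h : Bd K) : Bd (pol K) := by
  refine ⟨pol_convex K, ?_, zero_mem_interior_pol h⟩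
  exact Metric.isCompact_of_isClosed_isBounded (H712MA.GB.plr_closed K)
    (W679AM.GAaux.plr_bddA (obody h))

lemma neg_compact (h : IsCompact K) : IsCompact (-K) := h.neg

lemma bd_inter (h : Bd K) : Bd (K ∩ -K) := by
  refine ⟨h.1.inter h.1.neg, h.2.1.inter h.2.1.neg, ?_⟩
  rw [interior_inter]
  refine ⟨h.2.2, ?_⟩
  have h1 : interior (-K) = -interior K := by
    have := (Homeomorph.neg (Fin n → ℝ)).preimage_interior K
    simpa using this.symm
  rw [h1]
  simpa using h.2.2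

lemma conv_compact {K L : Set (Fin n → ℝ)} (hKc : Convex ℝ K) (hLc : Convex ℝ L)
    (hK : IsCompact K) (hL : IsCompact L) (hK0 : K.Nonempty) (hL0 : L.Nonempty) :
    IsCompact (convexHull ℝ (K ∪ L)) := by
  rw [hKc.convexHull_union hLc hK0 hL0]
  have h1 : convexJoin ℝ K L = (fun p : ((Fin n → ℝ) × (Fin n → ℝ)) × ℝ =>
      (1 - p.2) • p.1.1 + p.2 • p.1.2) '' ((K ×ˢ L) ×ˢ Icc (0 : ℝ) 1) := by
    ext x
    rw [mem_convexJoin]
    constructor
    · rintro ⟨a, ha, b, hb, hx⟩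
      rw [segment_eq_image] at hx
      obtain ⟨t, ht, rfl⟩ := hx
      exact ⟨((a, b), t), ⟨⟨ha, hb⟩, ht⟩, rfl⟩
    · rintro ⟨⟨⟨a, b⟩, t⟩, ⟨⟨ha, hb⟩, ht⟩, rfl⟩
      refine ⟨a, ha, b, hb, ?_⟩
      rw [segment_eq_image]
      exact ⟨t, ht, rfl⟩
  rw [h1]
  exact ((hK.prod hL).prod isCompact_Icc).image (by fun_prop)

lemma conv_compact' (h : Bd K) : IsCompact (convexHull ℝ (K ∪ -K)) :=
  conv_compact h.1 h.1.neg h.2.1 h.2.1.neg ⟨0, interior_subset h.2.2⟩
    ⟨0, by simpa using interior_subset h.2.2⟩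

lemma bd_conv (h : Bd K) : Bd (convexHull ℝ (K ∪ -K)) :=
  ⟨convex_convexHull _ _, conv_compact' h,
    interior_mono (subset_union_left.trans (subset_convexHull ℝ _)) h.2.2⟩

lemma pol_conv (K : Set (Fin n → ℝ)) : pol (convexHull ℝ (K ∪ -K)) ⊆ pol K ∩ -pol K := by
  intro y hy
  refine ⟨fun x hx => hy x (subset_convexHull ℝ _ (Or.inl hx)), fun x hx => ?_⟩
  have h1 := hy (-x) (subset_convexHull ℝ _ (Or.inr (by simpa using hx)))
  rwa [neg_dotProduct, ← dotProduct_neg] at h1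

/-- the bipolar theorem, one inclusion -/
lemma bipolar (h : Bd K) {x : Fin n → ℝ} (hx : ∀ y ∈ pol K, x ⬝ᵥ y ≤ 1) : x ∈ K := by
  refine _root_.Helper82.Mah.mem_of_dot h.2.1 h.1 fun u => ?_
  obtain ⟨a, ha, hau⟩ := _root_.Helper82.Mah.exists_max (obody h) u
  refine ⟨a, ha, ?_⟩
  have hmax : ∀ z ∈ K, z ⬝ᵥ u ≤ a ⬝ᵥ u := fun z hz => by
    rw [hau]
    exact W679AM.GAaux.le_hs (obody h) hz u
  by_contra hcon
  push Not at hcon
  have h0 : 0 ≤ a ⬝ᵥ u := by
    have := hmax 0 (interior_subset h.2.2)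
    rwa [zero_dotProduct] at this
  -- choose a number between
  obtain ⟨t, ht1, ht2⟩ := exists_between hcon
  have ht : 0 < t := h0.trans_lt ht1
  have h1 := hx (t⁻¹ • u) (fun z hz => by
    rw [dotProduct_smul, smul_eq_mul, inv_mul_le_one₀ ht]
    exact (hmax z hz).trans ht1.le)
  rw [dotProduct_smul, smul_eq_mul, inv_mul_le_one₀ ht] at h1
  linarith

lemma pol_inter (h : Bd K) : pol (K ∩ -K) ⊆ convexHull ℝ (pol K ∪ -pol K) := by
  intro y hy
  have hp := bd_pol h
  refine _root_.Helper82.Mah.mem_of_dot (conv_compact' hp) (convex_convexHull _ _)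
    fun u => ?_
  set C := convexHull ℝ (pol K ∪ -pol K) with hC
  have hCb : Bd C := bd_conv hp
  obtain ⟨a, ha, hau⟩ := _root_.Helper82.Mah.exists_max (obody hCb) u
  refine ⟨a, ha, ?_⟩
  have hmax : ∀ z ∈ C, z ⬝ᵥ u ≤ a ⬝ᵥ u := fun z hz => by
    rw [hau]
    exact W679AM.GAaux.le_hs (obody hCb) hz u
  by_contra hcon
  push Not at hcon
  have h0 : 0 ≤ a ⬝ᵥ u := by
    have := hmax 0 (interior_subset hCb.2.2)
    rwa [zero_dotProduct] at this
  obtain ⟨t, ht1, ht2⟩ := exists_between hcon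
  have ht : 0 < t := h0.trans_lt ht1
  have h1 : t⁻¹ • u ∈ K := by
    refine bipolar h fun z hz => ?_
    rw [dotProduct_comm, dotProduct_smul, smul_eq_mul, inv_mul_le_one₀ ht]
    exact (hmax z (subset_convexHull ℝ _ (Or.inl hz))).trans ht1.le
  have h2 : -(t⁻¹ • u) ∈ K := by
    refine bipolar h fun z hz => ?_
    have h3 := hmax (-z) (subset_convexHull ℝ _ (Or.inr (by simpa using hz)))
    rw [neg_dotProduct, dotProduct_comm z] at h3
    rw [neg_dotProduct, smul_dotProduct, smul_eq_mul, ← mul_neg, inv_mul_le_one₀ ht]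
    linarith
  have h3 := hy (t⁻¹ • u) ⟨h1, by simpa using h2⟩
  rw [smul_dotProduct, smul_eq_mul, inv_mul_le_one₀ ht, dotProduct_comm] at h3
  linarith

/-- PB -/
theorem pb : S_PB := by
  intro n K hK
  exact ⟨bd_pol hK, pol_inter hK, pol_conv K, bd_inter hK, bd_conv hK⟩

end MH.Helper82

end
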