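import Pool.Agent.Helper64.MH.Defs

/-!
# Part PROD
-/

set_option autoImplicit false

noncomputable section

namespace MH.Helper82

open MeasureTheory Matrix
open scoped ENNReal Pointwise

variable {n : ℕ} {K : Set (Fin n → ℝ)}

lemma half {k P S V : ℝ≥0∞} (h1 : k * P ^ 5 * S ^ 3 ≤ V ^ 8) (h2 : S ≤ 2 ^ n * V) :
    k * (P * S) ^ 5 ≤ 4 ^ n * V ^ 10 := by
  calc k * (P * S) ^ 5 = (k * P ^ 5 * S ^ 3) * S ^ 2 := by ring
    _ ≤ V ^ 8 * (2 ^ n * V) ^ 2 := by gcongr
    _ = (2 ^ n) ^ 2 * V ^ 10 := by ring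
    _ = 4 ^ n * V ^ 10 := by
      rw [← pow_mul, mul_comm n 2, pow_mul]
      norm_num

/-- PROD -/
theorem prod (hTWO : S_TWO) (hRS : S_RS) (hPB : S_PB) (hSYM : S_SYM) (hEXPH : S_EXPH) : S_PROD := by
  intro n K hK
  obtain ⟨hpol, hsub1, hsub2, hbi, hbc⟩ := hPB n K hK
  set V := volume K with hV
  set V' := volume (pol K) with hV'
  set P := volume (K ∩ -K) with hP
  set S := volume (convexHull ℝ (K ∪ -K)) with hS
  set P' := volume (pol K ∩ -pol K) with hP'
  set S' := volume (convexHull ℝ (pol K ∪ -pol K)) with hS'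
  have h1 : kk (n + 1) * (P * S) ^ 5 ≤ 4 ^ n * V ^ 10 := half (hTWO n K hK) (hRS n K hK)
  have h2 : kk (n + 1) * (P' * S') ^ 5 ≤ 4 ^ n * V' ^ 10 := half (hTWO n _ hpol) (hRS n _ hpol)
  have h3 : ENNReal.ofReal (4 ^ n / n.factorial) ≤ P * S' := by
    refine (hSYM n _ hbi fun x hx => ⟨by simpa using hx.2, by simpa using hx.1⟩).trans ?_
    exact mul_le_mul_right (measure_mono hsub1) _
  have h4 : ENNReal.ofReal (4 ^ n / n.factorial) ≤ S * P' := by
    refine (hSYM n _ hbc fun x hx => ?_).trans ?_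
    · have h5 : -convexHull ℝ (K ∪ -K) = convexHull ℝ (K ∪ -K) := by
        rw [← convexHull_neg, Set.union_neg, neg_neg, Set.union_comm]
      rw [← h5]
      simpa using hx
    · exact mul_le_mul_right (measure_mono hsub2) _
  have hf : (0 : ℝ) < n.factorial := by exact_mod_cast n.factorial_pos
  set X : ℝ≥0∞ := ENNReal.ofReal (n.factorial : ℝ) * (V * V') with hX
  have h5 : ENNReal.ofReal (((3125 / 8192) ^ (n + 1)) ^ 2 * (4 ^ n) ^ 10) ≤ 16 ^ n * X ^ 10 := by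
    have e1 : ENNReal.ofReal (4 ^ n : ℝ) =
        ENNReal.ofReal (n.factorial : ℝ) * ENNReal.ofReal (4 ^ n / n.factorial) := by
      rw [← ENNReal.ofReal_mul (by positivity)]
      congr 1
      field_simp
    have e2 : (16 : ℝ≥0∞) ^ n = 4 ^ n * 4 ^ n := by
      rw [← mul_pow]
      norm_num
    calc ENNReal.ofReal (((3125 / 8192) ^ (n + 1)) ^ 2 * (4 ^ n) ^ 10)
        = kk (n + 1) ^ 2 * ENNReal.ofReal (4 ^ n : ℝ) ^ 10 := by
          rw [ENNReal.ofReal_mul (by positivity)]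
          congr 1
          · rw [ENNReal.ofReal_pow (by positivity)]
            rfl
          · rw [ENNReal.ofReal_pow (by positivity)]
      _ = ENNReal.ofReal (n.factorial : ℝ) ^ 10 * (kk (n + 1) ^ 2 *
          (ENNReal.ofReal (4 ^ n / n.factorial) * ENNReal.ofReal (4 ^ n / n.factorial)) ^ 5) := by
          rw [e1]
          ring
      _ ≤ ENNReal.ofReal (n.factorial : ℝ) ^ 10 * (kk (n + 1) ^ 2 * ((P * S') * (S * P')) ^ 5) := by
          gcongr
      _ = ENNReal.ofReal (n.factorial : ℝ) ^ 10 *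
          ((kk (n + 1) * (P * S) ^ 5) * (kk (n + 1) * (P' * S') ^ 5)) := by ring
      _ ≤ ENNReal.ofReal (n.factorial : ℝ) ^ 10 * ((4 ^ n * V ^ 10) * (4 ^ n * V' ^ 10)) := by
          gcongr
      _ = 16 ^ n * X ^ 10 := by
          rw [e2, hX]
          ring
  have h6 : ENNReal.ofReal ((3125 / 8192) * (5 / 2) ^ n) ^ 10 ≤ X ^ 10 := by
    have h7 : 16 ^ n * ENNReal.ofReal ((3125 / 8192) * (5 / 2) ^ n) ^ 10 ≤ 16 ^ n * X ^ 10 := by
      refine le_trans ?_ h5
      have e3 : (16 : ℝ≥0∞) ^ n = ENNReal.ofReal ((16 : ℝ) ^ n) := by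
        rw [ENNReal.ofReal_pow (by norm_num)]
        norm_num
      rw [e3, ← ENNReal.ofReal_pow (by positivity), ← ENNReal.ofReal_mul (by positivity)]
      refine ENNReal.ofReal_le_ofReal ?_
      have e4 : (16 : ℝ) ^ n * (3125 / 8192 * (5 / 2) ^ n) ^ 10 =
          (3125 / 8192) ^ 10 * (16 * (5 / 2) ^ 10) ^ n := by
        rw [mul_pow, mul_pow, ← pow_mul, ← pow_mul, mul_comm n 10]
        ring
      have e5 : ((3125 / 8192 : ℝ) ^ (n + 1)) ^ 2 * (4 ^ n) ^ 10 =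
          (3125 / 8192) ^ 2 * (16 * (5 / 2) ^ 10) ^ n := by
        have e6 : (16 * (5 / 2) ^ 10 : ℝ) = (3125 / 8192) ^ 2 * 4 ^ 10 := by norm_num
        rw [e6, mul_pow, ← pow_mul, ← pow_mul, ← pow_mul, ← pow_mul, mul_comm n 10]
        ring
      rw [e4, e5]
      have : (3125 / 8192 : ℝ) ^ 10 ≤ (3125 / 8192) ^ 2 := by norm_num
      exact mul_le_mul_of_nonneg_right this (by positivity)
    have h8 : (16 : ℝ≥0∞) ^ n ≠ 0 := by positivity
    have h9 : (16 : ℝ≥0∞) ^ n ≠ ⊤ := ENNReal.pow_ne_top (by norm_num)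
    exact (ENNReal.mul_le_mul_iff_right h8 h9).1 h7
  have h10 : ENNReal.ofReal ((3125 / 8192) * (5 / 2) ^ n) ≤ X := by
    by_contra hcon
    push Not at hcon
    exact absurd h6 (not_le.2 (ENNReal.pow_lt_pow_left (by norm_num) hcon))
  refine h10.trans ?_
  unfold Mi
  calc X = V * (ENNReal.ofReal (n.factorial : ℝ) * V') := by rw [hX]; ring
    _ ≤ V * _ := mul_le_mul_right (hEXPH n K hK) _

end MH.Helper82

end
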