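import Pool.Agent.Helper82.MH.Res
import Pool.Agent.Helper82.MH.Pb
import Pool.Agent.Helper82.MH.Prod
import Pool.Agent.Helper82.MH.Main
import Pool.Agent.Helper64.MH.Cone
import Pool.Agent.Helper64.MH.Small
import Pool.Agent.Helper71.MH.CELL
import Pool.Agent.Helper71.MH.MINK
import Pool.Agent.Helper71.MH.MIX
import Pool.Agent.Helper79.MH.CELLT
import Pool.Agent.Helper79.MH.TENS
import Pool.Agent.Helper74.MH.FINV
import Pool.Agent.Helper9.MH.GEN
import Pool.Agent.Helper9.MH.UPK
import Pool.Agent.Helper47.MH.HOM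
import Pool.Agent.Helper47.MH.POSW
import Pool.Agent.Helper93.MH.LP
import Pool.Agent.Helper93.MH.UPLW
import Pool.Agent.H67.MH.OT
import Pool.Agent.Helper88.MH.POLY
import Pool.Agent.Helper88.MH.RS
import Pool.Agent.Helper32.MH.TWO
import Pool.Agent.Helper10.MH.UP1

/-!
# Assembly: the bound `(5/2)ⁿ` of the Mahler volumes
-/

set_option autoImplicit false

noncomputable section

namespace MH.Helper82

/-- the two-cone inequality -/
theorem final_cone : S_CONE :=
  MH.cone_ineq MH.Helper9.gen_thm MH.Helper93.LP MH.H74.FINV MH.H67.ot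
    (MH.H79.cellt_thm (MH.Helper71.cell (MH.Helper93.UPLW (MH.Helper9.upk_thm MH.Helper10.up1))
      (MH.Helper71.mix MH.Helper71.mink)))
    MH.Helper47.posw MH.sep MH.sigc MH.sums

/-- the bound for bodies with the origin in the interior -/
theorem final : S_MAIN :=
  main (prod (MH.Helper32.two (MH.Helper88P.POLY final_cone MH.Helper47.hom)) MH.Helper88.RS pb sym
    exph) MH.H79.tens_thm

end MH.Helper82

end
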