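import Pool.Agent.Helper82.MH.Sym

/-!
# Part RES: all positions, all `p`
-/

set_option autoImplicit false

noncomputable section

namespace MH.Helper82

open MeasureTheory Matrix Set
open scoped ENNReal Pointwise

variable {n : ℕ} {K : Set (Fin n → ℝ)}

/-- the bound for bodies in any position, `p = ∞` -/
theorem minf52 (hMAIN : S_MAIN) (hc : IsCompact K) (hv : Convex ℝ K) (hi : (interior K).Nonempty) :
    ENNReal.ofReal ((5 / 2) ^ n) ≤ volume K * ∫⁻ y, ENNReal.ofReal (Real.exp (-(hs K y))) := by
  by_cases h0 : (0 : Fin n → ℝ) ∈ interior K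
  · exact hMAIN n K ⟨hv, hc, h0⟩
  · have h1 := _root_.Helper82.Mah.exp_hs_top hc hv hi h0
    have h2 : ∫⁻ y, ENNReal.ofReal (Real.exp (-(hs K y))) = ⊤ := h1
    rw [h2, ENNReal.mul_top]
    · exact le_top
    · exact (lt_of_lt_of_le (isOpen_interior.measure_pos volume hi)
        (measure_mono interior_subset)).ne'

end MH.Helper82

end
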