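import Pool.Agent.Helper64.MH.Defs
import Pool.Agent.Helper82.Mah.Main

/-!
# Parts EXPH and SYM
-/

set_option autoImplicit false

noncomputable section

namespace MH.Helper82

open MeasureTheory Matrix
open scoped ENNReal Pointwise

variable {n : ℕ} {K : Set (Fin n → ℝ)}

lemma obody (h : Bd K) : W679AM.OBody K := ⟨h.2.1, h.1, h.2.2⟩

/-- EXPH -/
theorem exph : S_EXPH := by
  intro n K hK
  exact _root_.Helper82.Mah.exp_hs (obody hK)

/-- SYM -/
theorem sym : S_SYM := by
  intro n K hK hsym
  have h1 := _root_.Helper82.Mah.product (obody hK) (β := 1) le_rfl (c := 0) (by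
    intro x hx
    simpa using hsym x hx)
  have h2 : _root_.Helper82.Mah.base 1 = 4 := by
    unfold _root_.Helper82.Mah.base
    norm_num
  rw [h2] at h1
  have hf : (0 : ℝ) < n.factorial := by exact_mod_cast n.factorial_pos
  have h3 := mul_le_mul_right h1 (ENNReal.ofReal ((n.factorial : ℝ)⁻¹))
  rw [← ENNReal.ofReal_mul (by positivity)] at h3
  have e1 : ((n.factorial : ℝ)⁻¹) * 4 ^ n = 4 ^ n / n.factorial := by
    rw [inv_mul_eq_div]
  rw [e1] at h3
  refine h3.trans (le_of_eq ?_)
  calc ENNReal.ofReal ((n.factorial : ℝ)⁻¹) *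
        (volume K * (ENNReal.ofReal (n.factorial : ℝ) * volume (H712MA.GB.plr K)))
      = (ENNReal.ofReal ((n.factorial : ℝ)⁻¹) * ENNReal.ofReal (n.factorial : ℝ)) *
        (volume K * volume (H712MA.GB.plr K)) := by ring
    _ = volume K * volume (pol K) := by
      rw [← ENNReal.ofReal_mul (by positivity), inv_mul_cancel₀ hf.ne', ENNReal.ofReal_one, one_mul]
      rfl

end MH.Helper82

end
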